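import Mathlib

/-!
# MP_0a2cd2_co: gap between the adaptable and the separation choice number

For all `r ≥ 2` and `k` there is an `r`-uniform hypergraph `H` with `ch_ad(H) - ch_sep(H) ≥ k`.
-/

set_option autoImplicit false

namespace Pool.Agent.Results.MP_0a2cd2_co.UnboundedGap

open Finset
open scoped Classical

/-- `r`-uniform. A hypergraph on `V` is given by its finite set of edges. -/
def Uniform {V : Type} (r : ℕ) (E : Finset (Finset V)) : Prop := ∀ e ∈ E, e.card = r

/-- Distinct vertices in a common edge have at most one common colour. -/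
def Separated {V : Type} (E : Finset (Finset V)) (L : V → Finset ℕ) : Prop :=
  ∀ u v, u ≠ v → (∃ e ∈ E, u ∈ e ∧ v ∈ e) → (L u ∩ L v).card ≤ 1

/-- The separation choice number. -/
noncomputable def chSep {V : Type} (E : Finset (Finset V)) : ℕ :=
  sInf {k | ∀ L : V → Finset ℕ, (∀ v, k ≤ (L v).card) → Separated E L →
    ∃ φ : V → ℕ, (∀ v, φ v ∈ L v) ∧ ∀ e ∈ E, ¬ ∃ c, ∀ v ∈ e, φ v = c}

/-- The adaptable choice number. -/
noncomputable def chAd {V : Type} (E : Finset (Finset V)) : ℕ :=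
  sInf {k | ∀ L : V → Finset ℕ, (∀ v, k ≤ (L v).card) → ∀ f : Finset V → ℕ,
    ∃ φ : V → ℕ, (∀ v, φ v ∈ L v) ∧ ∀ e ∈ E, ¬ ∀ v ∈ e, φ v = f e}

/-! ### The construction -/

/-- The vertices: `t` groups of `q` vertices, and copies of the set of the words of length `k`
over `Fin r`, one copy for every choice of a subset and of a colour in every group. -/
abbrev Vtx (r k t q : ℕ) : Type :=
  (Fin t × Fin q) ⊕ (((Fin t → Finset (Fin q)) × (Fin t → Fin (t + k))) × (Fin k → Fin r))

/-- Edges of the first kind. -/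
def P1 {r k t q : ℕ} (e : Finset (Vtx r k t q))
    (d : ((Fin t → Finset (Fin q)) × (Fin t → Fin (t + k))) × Fin t × (Fin k → Fin r)) : Prop :=
  (d.1.1 d.2.1).card = r - 1 ∧
    e = insert (Sum.inr (d.1, d.2.2)) ((d.1.1 d.2.1).image fun a => Sum.inl (d.2.1, a))

/-- Edges of the second kind. -/
def P2 {r k t q : ℕ} (e : Finset (Vtx r k t q))
    (d : ((Fin t → Finset (Fin q)) × (Fin t → Fin (t + k))) × (Fin r → Fin k → Fin r) × Fin k) :
    Prop :=
  (∀ a b l, l < d.2.2 → d.2.1 a l = d.2.1 b l) ∧ (∀ a, d.2.1 a d.2.2 = a) ∧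
    e = univ.image fun a => Sum.inr (d.1, d.2.1 a)

/-- The hypergraph. -/
noncomputable def HE (r k t q : ℕ) : Finset (Finset (Vtx r k t q)) :=
  univ.filter fun e => (∃ d, P1 e d) ∨ ∃ d, P2 e d

/-- The colours of the groups. -/
def col (k t i c : ℕ) : ℕ := k + i * (t + k) + c

theorem col_inj {k t : ℕ} {i i' c c' : ℕ} (hc : c < t + k) (hc' : c' < t + k)
    (h : col k t i c = col k t i' c') : i = i' ∧ c = c' := by
  have h1 : i * (t + k) + c = i' * (t + k) + c' := by rw [col, col] at h; omega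
  have hpos : 0 < t + k := by omega
  have h2 : (i * (t + k) + c) / (t + k) = i := by
    rw [mul_comm, Nat.mul_add_div hpos, Nat.div_eq_of_lt hc, add_zero]
  have h3 : (i' * (t + k) + c') / (t + k) = i' := by
    rw [mul_comm, Nat.mul_add_div hpos, Nat.div_eq_of_lt hc', add_zero]
  rw [h1, h3] at h2
  subst h2
  exact ⟨rfl, by omega⟩

theorem uniform (r k t q : ℕ) (hr : 2 ≤ r) : Uniform r (HE r k t q) := by
  intro e he
  rcases (mem_filter.mp he).2 with ⟨d, h1, rfl⟩ | ⟨d, h1, h2, rfl⟩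
  · rw [card_insert_of_notMem, card_image_of_injective, h1]
    · omega
    · intro a b hab
      have := Sum.inl_injective hab
      exact (Prod.ext_iff.mp this).2
    · simp
  · rw [card_image_of_injective, card_univ, Fintype.card_fin]
    intro a b hab
    have h3 := Sum.inr_injective hab
    have h4 := (Prod.ext_iff.mp h3).2
    have h5 : d.2.1 a = d.2.1 b := h4
    rw [← h2 a, ← h2 b, h5]

/-! ### The adaptable choice number is large -/

theorem P1_unique {r k t q : ℕ} (hr : 2 ≤ r) {e : Finset (Vtx r k t q)} {d d'}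
    (h : P1 e d) (h' : P1 e d') : d.1 = d'.1 ∧ d.2.1 = d'.2.1 := by
  obtain ⟨h1, h2⟩ := h
  obtain ⟨h1', h2'⟩ := h'
  have h3 : (Sum.inr (d.1, d.2.2) : Vtx r k t q) ∈ e := by rw [h2]; exact mem_insert_self _ _
  have h4 : d.1 = d'.1 := by
    rw [h2'] at h3
    rcases mem_insert.mp h3 with h5 | h5
    · exact (Prod.ext_iff.mp (Sum.inr_injective h5)).1
    · obtain ⟨a, _, ha⟩ := mem_image.mp h5
      exact absurd ha (by simp)
  refine ⟨h4, ?_⟩
  obtain ⟨a, ha⟩ : (d.1.1 d.2.1).Nonempty := by rw [← card_pos]; omega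
  have h5 : (Sum.inl (d.2.1, a) : Vtx r k t q) ∈ e := by
    rw [h2]; exact mem_insert_of_mem (mem_image_of_mem _ ha)
  rw [h2'] at h5
  rcases mem_insert.mp h5 with h6 | h6
  · exact absurd h6 (by simp)
  · obtain ⟨b, _, hb⟩ := mem_image.mp h6
    exact (Prod.ext_iff.mp (Sum.inl_injective hb)).1.symm

theorem P1_P2 {r k t q : ℕ} (hr : 2 ≤ r) {e : Finset (Vtx r k t q)} {d d'}
    (h : P1 e d) (h' : P2 e d') : False := by
  obtain ⟨h1, h2⟩ := h
  obtain ⟨_, _, h2'⟩ := h'
  obtain ⟨a, ha⟩ : (d.1.1 d.2.1).Nonempty := by rw [← card_pos]; omega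
  have h5 : (Sum.inl (d.2.1, a) : Vtx r k t q) ∈ e := by
    rw [h2]; exact mem_insert_of_mem (mem_image_of_mem _ ha)
  rw [h2'] at h5
  obtain ⟨b, _, hb⟩ := mem_image.mp h5
  exact absurd hb (by simp)

theorem P2_le {r k t q : ℕ} (hr : 2 ≤ r) {e : Finset (Vtx r k t q)} {d d'}
    (h : P2 e d) (h' : P2 e d') : d.2.2 ≤ d'.2.2 := by
  obtain ⟨h1, h2, h3⟩ := h
  obtain ⟨h1', h2', h3'⟩ := h'
  by_contra hcon
  push Not at hcon
  have hmem : ∀ a, ∃ b, d.2.1 b = d'.2.1 a := by
    intro a
    have h4 : (Sum.inr (d'.1, d'.2.1 a) : Vtx r k t q) ∈ e := by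
      rw [h3']; exact mem_image_of_mem _ (mem_univ a)
    rw [h3] at h4
    obtain ⟨b, _, hb⟩ := mem_image.mp h4
    exact ⟨b, (Prod.ext_iff.mp (Sum.inr_injective hb)).2⟩
  obtain ⟨b0, hb0⟩ := hmem ⟨0, by omega⟩
  obtain ⟨b1, hb1⟩ := hmem ⟨1, by omega⟩
  have h5 := h1 b0 b1 d'.2.2 hcon
  rw [hb0, hb1, h2', h2'] at h5
  simp at h5

/-- The labels of the edges. -/
noncomputable def lab {r k t q : ℕ} (e : Finset (Vtx r k t q)) : ℕ :=
  if h : ∃ d, P1 e d then col k t h.choose.2.1 (h.choose.1.2 h.choose.2.1)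
  else if h : ∃ d, P2 e d then (h.choose.2.2 : ℕ) else 0

theorem lab_P1 {r k t q : ℕ} (hr : 2 ≤ r) {e : Finset (Vtx r k t q)} {d} (h : P1 e d) :
    lab e = col k t d.2.1 (d.1.2 d.2.1) := by
  have hex : ∃ d, P1 e d := ⟨d, h⟩
  rw [lab, dif_pos hex]
  obtain ⟨h1, h2⟩ := P1_unique hr hex.choose_spec h
  rw [h1, h2]

theorem lab_P2 {r k t q : ℕ} (hr : 2 ≤ r) {e : Finset (Vtx r k t q)} {d} (h : P2 e d) :
    lab e = (d.2.2 : ℕ) := by
  have hnot : ¬ ∃ d, P1 e d := fun ⟨d', h'⟩ => P1_P2 hr h' h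
  have hex : ∃ d, P2 e d := ⟨d, h⟩
  rw [lab, dif_neg hnot, dif_pos hex]
  have h1 := P2_le hr hex.choose_spec h
  have h2 := P2_le hr h hex.choose_spec
  exact congrArg Fin.val (le_antisymm h1 h2)

/-- The tree argument. -/
theorem tree (r k : ℕ) (hr : 2 ≤ r) (ψ : (Fin k → Fin r) → ℕ)
    (hψ : ∀ (y : Fin r → Fin k → Fin r) (j : Fin k), (∀ a b l, l < j → y a l = y b l) →
      (∀ a, y a j = a) → ¬ ∀ a, ψ (y a) = j) : ∃ x, k ≤ ψ x := by
  have key : ∀ j : ℕ, j ≤ k → ∃ p : Fin k → Fin r, ∀ x : Fin k → Fin r,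
      (∀ l : Fin k, (l : ℕ) < j → x l = p l) → j ≤ ψ x := by
    intro j
    induction j with
    | zero => exact fun _ => ⟨fun _ => ⟨0, by omega⟩, fun _ _ => Nat.zero_le _⟩
    | succ j ih =>
      intro hj
      obtain ⟨p, hp⟩ := ih (by omega)
      have hjk : j < k := by omega
      by_contra hcon
      push Not at hcon
      have h1 : ∀ a : Fin r, ∃ x : Fin k → Fin r, (∀ l : Fin k, (l : ℕ) < j → x l = p l) ∧
          x ⟨j, hjk⟩ = a ∧ ψ x = j := by
        intro a
        obtain ⟨x, hx1, hx2⟩ := hcon (Function.update p ⟨j, hjk⟩ a)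
        have h2 : ∀ l : Fin k, (l : ℕ) < j → x l = p l := by
          intro l hl
          have h3 := hx1 l (by omega)
          rw [Function.update_of_ne] at h3
          · exact h3
          · intro h
            rw [h] at hl
            simp at hl
        refine ⟨x, h2, ?_, ?_⟩
        · have h3 := hx1 ⟨j, hjk⟩ (by simp)
          rwa [Function.update_self] at h3
        · have h3 := hp x h2
          omega
      choose y hy1 hy2 hy3 using h1
      refine hψ y ⟨j, hjk⟩ (fun a b l hl => ?_) hy2 (fun a => hy3 a)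
      rw [hy1 a l hl, hy1 b l hl]
  obtain ⟨p, hp⟩ := key k le_rfl
  exact ⟨p, hp p fun _ _ => rfl⟩

theorem not_adaptable (r k t q : ℕ) (hr : 2 ≤ r) (hq : (r - 2) * (t + k) < q) :
    ¬ ∀ L : Vtx r k t q → Finset ℕ, (∀ v, t + k ≤ (L v).card) → ∀ f : Finset (Vtx r k t q) → ℕ,
      ∃ φ : Vtx r k t q → ℕ, (∀ v, φ v ∈ L v) ∧ ∀ e ∈ HE r k t q, ¬ ∀ v ∈ e, φ v = f e := by
  intro hall
  obtain ⟨φ, h1, h2⟩ := hall
    (Sum.elim (fun p => univ.image fun c : Fin (t + k) => col k t p.1 c)
      (fun p => range k ∪ univ.image fun i : Fin t => col k t i (p.1.2 i))) (by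
    intro v
    rcases v with p | p
    · show t + k ≤ (univ.image fun c : Fin (t + k) => col k t p.1 c).card
      rw [card_image_of_injective, card_univ, Fintype.card_fin]
      intro c c' hcc
      exact Fin.ext (col_inj c.isLt c'.isLt hcc).2
    · show t + k ≤ (range k ∪ univ.image fun i : Fin t => col k t i (p.1.2 i)).card
      rw [card_union_of_disjoint, card_range, card_image_of_injective, card_univ,
        Fintype.card_fin]
      · omega
      · intro i i' hii
        exact Fin.ext (col_inj (p.1.2 i).isLt (p.1.2 i').isLt hii).1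
      · rw [disjoint_left]
        intro x hx hx2
        obtain ⟨i, _, rfl⟩ := mem_image.mp hx2
        have := mem_range.mp hx
        rw [col] at this
        omega) lab
  -- the colours of the groups
  have h3 : ∀ (i : Fin t) (a : Fin q), ∃ c : Fin (t + k), φ (Sum.inl (i, a)) = col k t i c := by
    intro i a
    have h4 : φ (Sum.inl (i, a)) ∈ univ.image fun c : Fin (t + k) => col k t i c :=
      h1 (Sum.inl (i, a))
    obtain ⟨c, _, hc⟩ := mem_image.mp h4
    exact ⟨c, hc.symm⟩
  choose g hg using h3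
  have h4 : ∀ i : Fin t, ∃ (c : Fin (t + k)) (S : Finset (Fin q)), S.card = r - 1 ∧
      ∀ a ∈ S, g i a = c := by
    intro i
    have h5 : ∃ c : Fin (t + k), r - 2 < (univ.filter fun a => g i a = c).card := by
      by_contra hcon
      push Not at hcon
      have h6 : (univ : Finset (Fin q)).card =
          ∑ c : Fin (t + k), (univ.filter fun a => g i a = c).card :=
        card_eq_sum_card_fiberwise fun a _ => mem_univ _
      have h7 : ∑ c : Fin (t + k), (univ.filter fun a => g i a = c).card ≤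
          ∑ _c : Fin (t + k), (r - 2) := sum_le_sum fun c _ => hcon c
      rw [sum_const, card_univ, Fintype.card_fin, smul_eq_mul] at h7
      rw [card_univ, Fintype.card_fin] at h6
      rw [mul_comm] at hq
      omega
    obtain ⟨c, hc⟩ := h5
    obtain ⟨S, hS1, hS2⟩ := exists_subset_card_eq (show r - 1 ≤
      (univ.filter fun a => g i a = c).card by omega)
    exact ⟨c, S, hS2, fun a ha => (mem_filter.mp (hS1 ha)).2⟩
  choose c S hS1 hS2 using h4
  -- the copy
  have h5 : ∀ x : Fin k → Fin r, φ (Sum.inr ((S, c), x)) < k := by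
    intro x
    have h6 : φ (Sum.inr ((S, c), x)) ∈ range k ∪ univ.image fun i : Fin t => col k t i (c i) :=
      h1 (Sum.inr ((S, c), x))
    rcases mem_union.mp h6 with h7 | h7
    · exact mem_range.mp h7
    · exfalso
      obtain ⟨i, _, hi⟩ := mem_image.mp h7
      have hP : P1 (insert (Sum.inr ((S, c), x))
          ((S i).image fun a => (Sum.inl (i, a) : Vtx r k t q))) ((S, c), i, x) := ⟨hS1 i, rfl⟩
      refine h2 _ (mem_filter.mpr ⟨mem_univ _, Or.inl ⟨_, hP⟩⟩) ?_
      rw [lab_P1 hr hP]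
      intro v hv
      rcases mem_insert.mp hv with rfl | hv
      · exact hi.symm
      · obtain ⟨a, ha, rfl⟩ := mem_image.mp hv
        rw [hg i a, hS2 i a ha]
  obtain ⟨x, hx⟩ := tree r k hr (fun x => φ (Sum.inr ((S, c), x))) (by
    intro y j hy1 hy2 hy3
    have hP : P2 (univ.image fun a => (Sum.inr ((S, c), y a) : Vtx r k t q)) ((S, c), y, j) :=
      ⟨hy1, hy2, rfl⟩
    refine h2 _ (mem_filter.mpr ⟨mem_univ _, Or.inr ⟨_, hP⟩⟩) ?_
    rw [lab_P2 hr hP]
    intro v hv
    obtain ⟨a, _, rfl⟩ := mem_image.mp hv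
    exact hy3 a)
  exact absurd (h5 x) (not_lt.mpr hx)

/-! ### The separation choice number is small -/

/-- Any two distinct words of a copy are in a common edge. -/
theorem common_edge (r k t q : ℕ) (idx : (Fin t → Finset (Fin q)) × (Fin t → Fin (t + k)))
    (x y : Fin k → Fin r) (hxy : x ≠ y) :
    ∃ e ∈ HE r k t q, (Sum.inr (idx, x) : Vtx r k t q) ∈ e ∧
      (Sum.inr (idx, y) : Vtx r k t q) ∈ e := by
  -- the first difference
  have hne : (univ.filter fun l => x l ≠ y l).Nonempty := by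
    by_contra hcon
    rw [not_nonempty_iff_eq_empty, filter_eq_empty_iff] at hcon
    apply hxy
    funext l
    have := hcon (mem_univ l)
    push Not at this
    exact this
  obtain ⟨j, hj, hmin⟩ := exists_min_image (univ.filter fun l => x l ≠ y l) id hne
  have hj' := (mem_filter.mp hj).2
  have hagree : ∀ l, l < j → x l = y l := by
    intro l hl
    by_contra hne'
    have := hmin l (mem_filter.mpr ⟨mem_univ _, hne'⟩)
    exact absurd hl (not_lt.mpr this)
  let w : Fin r → Fin k → Fin r := fun a =>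
    if a = x j then x else if a = y j then y else Function.update x j a
  have hwx : w (x j) = x := by simp [w]
  have hwy : w (y j) = y := by simp [w, Ne.symm hj']
  have hP : P2 (univ.image fun a => (Sum.inr (idx, w a) : Vtx r k t q)) (idx, w, j) := by
    refine ⟨?_, ?_, rfl⟩
    · have h1 : ∀ a l, l < j → w a l = x l := by
        intro a l hl
        simp only [w]
        split_ifs
        · rfl
        · exact (hagree l hl).symm
        · rw [Function.update_of_ne hl.ne]
      intro a b l hl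
      exact (h1 a l hl).trans (h1 b l hl).symm
    · intro a
      show w a j = a
      simp only [w]
      split_ifs with h1 h2
      · exact h1.symm
      · exact h2.symm
      · rw [Function.update_self]
  refine ⟨_, mem_filter.mpr ⟨mem_univ _, Or.inr ⟨_, hP⟩⟩, ?_, ?_⟩
  · exact mem_image.mpr ⟨x j, mem_univ _, by rw [hwx]⟩
  · exact mem_image.mpr ⟨y j, mem_univ _, by rw [hwy]⟩

theorem separable (r k t q : ℕ) (hr : 2 ≤ r) (ht : 2 * r ^ k ≤ t)
    (L : Vtx r k t q → Finset ℕ) (hL : ∀ v, t + 1 ≤ (L v).card)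
    (hsep : Separated (HE r k t q) L) :
    ∃ φ : Vtx r k t q → ℕ, (∀ v, φ v ∈ L v) ∧
      ∀ e ∈ HE r k t q, ¬ ∃ c, ∀ v ∈ e, φ v = c := by
  have h1 : ∀ v, ∃ M ⊆ L v, M.card = t + 1 := fun v => exists_subset_card_eq (hL v)
  choose M hM1 hM2 using h1
  have h2 : ∀ p : Fin t × Fin q, ∃ c, c ∈ M (Sum.inl p) := fun p => by
    have : 0 < (M (Sum.inl p)).card := by rw [hM2]; omega
    exact card_pos.mp this
  choose φ0 hφ0 using h2
  -- the forbidden colours of a copy
  have h3 : ∀ (idx : (Fin t → Finset (Fin q)) × (Fin t → Fin (t + k))), ∃ C : Finset ℕ,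
      C.card ≤ t ∧ ∀ i, (idx.1 i).Nonempty → ∃ a ∈ idx.1 i, φ0 (i, a) ∈ C := by
    intro idx
    refine ⟨univ.biUnion fun i : Fin t => if h : (idx.1 i).Nonempty then {φ0 (i, h.choose)}
      else ∅, ?_, ?_⟩
    · refine card_biUnion_le.trans ?_
      calc ∑ i : Fin t, (if h : (idx.1 i).Nonempty then ({φ0 (i, h.choose)} : Finset ℕ)
            else ∅).card ≤ ∑ _i : Fin t, 1 := by
            refine sum_le_sum fun i _ => ?_
            split_ifs <;> simp
        _ = t := by simp
    · intro i hi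
      refine ⟨hi.choose, hi.choose_spec, mem_biUnion.mpr ⟨i, mem_univ _, ?_⟩⟩
      rw [dif_pos hi]
      exact mem_singleton_self _
  choose C hC1 hC2 using h3
  -- the colours of a copy
  have h4 : ∀ idx : (Fin t → Finset (Fin q)) × (Fin t → Fin (t + k)),
      ∃ ψ : (Fin k → Fin r) → ℕ, Function.Injective ψ ∧
        ∀ x, ψ x ∈ M (Sum.inr (idx, x)) \ C idx := by
    intro idx
    refine (Finset.all_card_le_biUnion_card_iff_exists_injective
      fun x => M (Sum.inr (idx, x)) \ C idx).mp fun J => ?_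
    have hN : Fintype.card (Fin k → Fin r) = r ^ k := by simp
    have hJN : J.card ≤ r ^ k := by rw [← hN]; exact card_le_univ J
    have hone : ∀ x, 1 ≤ (M (Sum.inr (idx, x)) \ C idx).card := by
      intro x
      have h5 := le_card_sdiff (C idx) (M (Sum.inr (idx, x)))
      rw [hM2] at h5
      have := hC1 idx
      omega
    rcases lt_or_ge J.card 2 with h5 | h5
    · rcases J.eq_empty_or_nonempty with rfl | ⟨x, hx⟩
      · simp
      · have h6 := card_le_card (subset_biUnion_of_mem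
          (fun x => M (Sum.inr (idx, x)) \ C idx) hx)
        have h7 := hone x
        omega
    · obtain ⟨x, hx, y, hy, hxy⟩ := one_lt_card.mp (show 1 < J.card from h5)
      have hlarge : r ^ k ≤ (M (Sum.inr (idx, x)) \ C idx).card ∨
          r ^ k ≤ (M (Sum.inr (idx, y)) \ C idx).card := by
        by_contra hcon
        push Not at hcon
        obtain ⟨h6, h7⟩ := hcon
        have h8 := card_sdiff_add_card_inter (M (Sum.inr (idx, x))) (C idx)
        have h9 := card_sdiff_add_card_inter (M (Sum.inr (idx, y))) (C idx)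
        rw [hM2] at h8 h9
        have h10 := card_union_add_card_inter (M (Sum.inr (idx, x)) ∩ C idx)
          (M (Sum.inr (idx, y)) ∩ C idx)
        have h11 : (M (Sum.inr (idx, x)) ∩ C idx ∪ M (Sum.inr (idx, y)) ∩ C idx).card ≤ t :=
          (card_le_card (union_subset inter_subset_right inter_subset_right)).trans (hC1 idx)
        have h12 : ((M (Sum.inr (idx, x)) ∩ C idx) ∩ (M (Sum.inr (idx, y)) ∩ C idx)).card ≤ 1 := by
          obtain ⟨e, he, hxe, hye⟩ := common_edge r k t q idx x y hxy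
          refine le_trans (card_le_card ?_) (hsep (Sum.inr (idx, x)) (Sum.inr (idx, y))
            (fun h => hxy (Prod.ext_iff.mp (Sum.inr_injective h)).2) ⟨e, he, hxe, hye⟩)
          intro z hz
          obtain ⟨hz1, hz2⟩ := mem_inter.mp hz
          exact mem_inter.mpr ⟨hM1 _ (mem_inter.mp hz1).1, hM1 _ (mem_inter.mp hz2).1⟩
        omega
      rcases hlarge with h6 | h6
      · exact (hJN.trans h6).trans (card_le_card (subset_biUnion_of_mem
          (fun x => M (Sum.inr (idx, x)) \ C idx) hx))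
      · exact (hJN.trans h6).trans (card_le_card (subset_biUnion_of_mem
          (fun x => M (Sum.inr (idx, x)) \ C idx) hy))
  choose ψ hψ1 hψ2 using h4
  refine ⟨Sum.elim φ0 fun p => ψ p.1 p.2, ?_, ?_⟩
  · intro v
    rcases v with p | p
    · exact hM1 _ (hφ0 p)
    · exact hM1 _ (mem_sdiff.mp (hψ2 p.1 p.2)).1
  · rintro e he ⟨c, hc⟩
    rcases (mem_filter.mp he).2 with ⟨d, h5, rfl⟩ | ⟨d, h5, h6, rfl⟩
    · have hne : (d.1.1 d.2.1).Nonempty := by rw [← card_pos]; omega
      obtain ⟨a, ha1, ha2⟩ := hC2 d.1 d.2.1 hne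
      have h7 := hc (Sum.inr (d.1, d.2.2)) (mem_insert_self _ _)
      have h8 := hc (Sum.inl (d.2.1, a)) (mem_insert_of_mem (mem_image_of_mem _ ha1))
      have h7' : ψ d.1 d.2.2 = c := h7
      have h8' : φ0 (d.2.1, a) = c := h8
      refine (mem_sdiff.mp (hψ2 d.1 d.2.2)).2 ?_
      rw [h7', ← h8']
      exact ha2
    · have h7 := hc (Sum.inr (d.1, d.2.1 ⟨0, by omega⟩)) (mem_image_of_mem _ (mem_univ _))
      have h8 := hc (Sum.inr (d.1, d.2.1 ⟨1, by omega⟩)) (mem_image_of_mem _ (mem_univ _))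
      have h7' : ψ d.1 (d.2.1 ⟨0, by omega⟩) = c := h7
      have h8' : ψ d.1 (d.2.1 ⟨1, by omega⟩) = c := h8
      have h9 := hψ1 d.1 (h7'.trans h8'.symm)
      have h10 := h6 ⟨0, by omega⟩
      rw [h9, h6] at h10
      simp at h10

/-- Lists as large as the vertex set suffice. -/
theorem adaptable_card {V : Type} [Fintype V] (r : ℕ) (hr : 2 ≤ r) (E : Finset (Finset V))
    (hE : Uniform r E) (L : V → Finset ℕ) (hL : ∀ v, Fintype.card V ≤ (L v).card)
    (f : Finset V → ℕ) :
    ∃ φ : V → ℕ, (∀ v, φ v ∈ L v) ∧ ∀ e ∈ E, ¬ ∀ v ∈ e, φ v = f e := by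
  obtain ⟨φ, h1, h2⟩ := (Finset.all_card_le_biUnion_card_iff_exists_injective L).mp fun J => by
    rcases J.eq_empty_or_nonempty with rfl | ⟨x, hx⟩
    · simp
    · exact ((card_le_univ J).trans (hL x)).trans (card_le_card (subset_biUnion_of_mem L hx))
  refine ⟨φ, h2, fun e he hall => ?_⟩
  obtain ⟨x, hx, y, hy, hxy⟩ := one_lt_card.mp (show 1 < e.card by rw [hE e he]; omega)
  exact hxy (h1 ((hall x hx).trans (hall y hy).symm))

/-- **Main theorem** (Q1, full affirmative answer): for every `r ≥ 2` and every `k` there is an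
`r`-uniform hypergraph `H` with `ch_ad(H) ≥ ch_sep(H) + k`. -/
theorem result (r k : ℕ) (hr : 2 ≤ r) :
    ∃ (V : Type) (_ : Fintype V) (E : Finset (Finset V)),
      Uniform r E ∧ chSep E + k ≤ chAd E := by
  obtain ⟨t, ht⟩ : ∃ t, t = 2 * r ^ k := ⟨_, rfl⟩
  obtain ⟨q, hq⟩ : ∃ q, q = (r - 2) * (t + k) + 1 := ⟨_, rfl⟩
  refine ⟨Vtx r k t q, inferInstance, HE r k t q, uniform r k t q hr, ?_⟩
  have h1 : chSep (HE r k t q) ≤ t + 1 :=
    Nat.sInf_le fun L hL hsep => separable r k t q hr ht.ge L hL hsep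
  have h2 : t + k < chAd (HE r k t q) := by
    by_contra hcon
    push Not at hcon
    have h3 := Nat.sInf_mem (s := {k' | ∀ L : Vtx r k t q → Finset ℕ, (∀ v, k' ≤ (L v).card) →
      ∀ f : Finset (Vtx r k t q) → ℕ, ∃ φ : Vtx r k t q → ℕ, (∀ v, φ v ∈ L v) ∧
        ∀ e ∈ HE r k t q, ¬ ∀ v ∈ e, φ v = f e})
      ⟨Fintype.card (Vtx r k t q), fun L hL f =>
        adaptable_card r hr _ (uniform r k t q hr) L hL f⟩
    exact not_adaptable r k t q hr (by omega) fun L hL f =>
      h3 L (fun v => le_trans hcon (hL v)) f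
  omega

end Pool.Agent.Results.MP_0a2cd2_co.UnboundedGap
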